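import Pool.Agent.Q96.ID.Stm

/-!
# Job ID-IDB (helper129, for project ID of helper96)
-/

set_option autoImplicit false

namespace Q129.ID.IDB

open Q96.ID

variable {𝕜 : Type} [RCLike 𝕜]

theorem inj_retract {X Y : Type} [NormedAddCommGroup X] [NormedSpace 𝕜 X] [NormedAddCommGroup Y]
    [NormedSpace 𝕜 Y] (r : X →L[𝕜] Y) (s : Y →L[𝕜] X) (h : ∀ y, r (s y) = y) (hX : Inj 𝕜 X) :
    Inj 𝕜 Y := by
  intro A B _ _ _ _ _ _ i c hi f
  obtain ⟨g, hg⟩ := hX A B i c hi (s.comp f)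
  refine ⟨r.comp g, fun x => ?_⟩
  rw [ContinuousLinearMap.comp_apply, hg, ContinuousLinearMap.comp_apply, h]

theorem inj_prod {X Y : Type} [NormedAddCommGroup X] [NormedSpace 𝕜 X] [NormedAddCommGroup Y]
    [NormedSpace 𝕜 Y] (hX : Inj 𝕜 X) (hY : Inj 𝕜 Y) : Inj 𝕜 (X × Y) := by
  intro A B _ _ _ _ _ _ i c hi f
  obtain ⟨g, hg⟩ := hX A B i c hi ((ContinuousLinearMap.fst 𝕜 X Y).comp f)
  obtain ⟨g', hg'⟩ := hY A B i c hi ((ContinuousLinearMap.snd 𝕜 X Y).comp f)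
  refine ⟨g.prod g', fun x => ?_⟩
  rw [ContinuousLinearMap.prod_apply, hg, hg']
  rfl

theorem idle_prod (n : ℕ) {X Y : Type} [NormedAddCommGroup X] [NormedSpace 𝕜 X] [NormedAddCommGroup Y]
    [NormedSpace 𝕜 Y] [CompleteSpace Y] (hX : IdLE 𝕜 n X) (hY : Inj 𝕜 Y) : IdLE 𝕜 n (X × Y) := by
  rcases n with _ | n
  · exact inj_prod hX hY
  · obtain ⟨E, Q, _, _, _, _, _, _, i, q, hE, hS, hQ⟩ := hX
    refine ⟨E × Y, Q, inferInstance, inferInstance, inferInstance, inferInstance, inferInstance,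
      inferInstance, i.prodMap (ContinuousLinearMap.id 𝕜 Y), q.comp (ContinuousLinearMap.fst 𝕜 E Y),
      inj_prod hE hY, ?_, hQ⟩
    refine ⟨?_, ?_, ?_⟩
    · intro a b hab
      have h1 := congrArg Prod.fst hab
      have h2 := congrArg Prod.snd hab
      exact Prod.ext (hS.inj h1) h2
    · intro b
      constructor
      · intro hb
        obtain ⟨a, ha⟩ := (hS.ker b.1).1 hb
        exact ⟨(a, b.2), Prod.ext ha rfl⟩
      · rintro ⟨a, rfl⟩
        exact (hS.ker _).2 ⟨a.1, rfl⟩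
    · intro z
      obtain ⟨e, he⟩ := hS.surj z
      exact ⟨(e, 0), he⟩

theorem idle_succ (n : ℕ) : ∀ (X : Type) [NormedAddCommGroup X] [NormedSpace 𝕜 X] [CompleteSpace X],
    IdLE 𝕜 n X → IdLE 𝕜 (n + 1) X := by
  induction n with
  | zero =>
    intro X _ _ _ hX
    refine ⟨X, Fin 0 → 𝕜, inferInstance, inferInstance, inferInstance, inferInstance, inferInstance,
      inferInstance, ContinuousLinearMap.id 𝕜 X, 0, hX, ⟨fun a b h => h, ?_, ?_⟩, ?_⟩
    · intro b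
      exact ⟨fun _ => ⟨b, rfl⟩, fun _ => rfl⟩
    · intro z
      exact ⟨0, Subsingleton.elim _ _⟩
    · intro A B _ _ _ _ _ _ i c hi f
      exact ⟨0, fun x => Subsingleton.elim _ _⟩
  | succ n ih =>
    intro X _ _ _ hX
    obtain ⟨E, Q, _, _, _, _, _, _, i, q, hE, hS, hQ⟩ := hX
    exact ⟨E, Q, inferInstance, inferInstance, inferInstance, inferInstance, inferInstance,
      inferInstance, i, q, hE, hS, ih Q hQ⟩

theorem t_IDB : S_IDB := by
  intro 𝕜 _ X Y _ _ _ _ _ _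
  exact ⟨fun r s h hX => inj_retract r s h hX, inj_prod, fun n hX hY => idle_prod n hX hY,
    fun n hX => idle_succ n X hX⟩

end Q129.ID.IDB
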